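import Pool.Agent.W805.LR.Stm5

set_option autoImplicit false

/-!
Tail estimates for the number of partners in a set, for a uniform matching.
-/

namespace Pool.Agent.W345.PD

open Finset Equiv
open Pool.Agent.W805.PD

section lin

variable {V : Type} [Fintype V] [DecidableEq V]

theorem avgM_mono {E : Finset V} {F G : Perm V → ℝ} (h : ∀ α ∈ matchings E, F α ≤ G α) :
    avgM E F ≤ avgM E G := by
  unfold avgM
  gcongr with α hα
  exact h α hα

theorem avgM_congr {E : Finset V} {F G : Perm V → ℝ} (h : ∀ α ∈ matchings E, F α = G α) :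
    avgM E F = avgM E G := by
  unfold avgM
  rw [Finset.sum_congr rfl h]

theorem avgM_const {E : Finset V} (h : (matchings E).Nonempty) (c : ℝ) :
    avgM E (fun _ => c) = c := by
  unfold avgM
  rw [Finset.sum_const, nsmul_eq_mul]
  have : ((matchings E).card : ℝ) ≠ 0 := by exact_mod_cast (Finset.card_pos.2 h).ne'
  field_simp

theorem avgM_sum {ι : Type} {E : Finset V} (s : Finset ι) (f : ι → Perm V → ℝ) :
    avgM E (fun α => ∑ i ∈ s, f i α) = ∑ i ∈ s, avgM E (f i) := by
  unfold avgM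
  rw [Finset.sum_comm, Finset.sum_div]

theorem avgM_add {E : Finset V} (F G : Perm V → ℝ) :
    avgM E (fun α => F α + G α) = avgM E F + avgM E G := by
  unfold avgM
  rw [Finset.sum_add_distrib, add_div]

theorem avgM_mul {E : Finset V} (c : ℝ) (F : Perm V → ℝ) :
    avgM E (fun α => c * F α) = c * avgM E F := by
  unfold avgM
  rw [← Finset.mul_sum, mul_div_assoc]

theorem mem_fix {E : Finset V} {α : Perm V} (h : α ∈ matchings E) {x : V} (hx : x ∉ E) :
    α x = x := by
  unfold matchings at h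
  rw [Finset.mem_filter] at h
  rw [← h.2.2] at hx
  exact Perm.notMem_support.1 hx

theorem mem_map {E : Finset V} {α : Perm V} (h : α ∈ matchings E) {x : V} (hx : x ∈ E) :
    α x ∈ E := by
  unfold matchings at h
  rw [Finset.mem_filter] at h
  rw [← h.2.2] at hx ⊢
  exact Perm.apply_mem_support.2 hx

theorem card2 {E : Finset V} {e s : V} (he : e ∈ E) (hs : s ∈ E.erase e) :
    (((E.erase e).erase s).card : ℝ) = E.card - 2 ∧ ((E.erase e).erase s).card + 2 = E.card := by
  have h : ((E.erase e).erase s).card + 2 = E.card := by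
    rw [Finset.card_erase_of_mem hs, Finset.card_erase_of_mem he]
    have : 0 < (E.erase e).card := Finset.card_pos.2 ⟨s, hs⟩
    rw [Finset.card_erase_of_mem he] at this
    omega
  refine ⟨?_, h⟩
  rw [← h]; push_cast; ring

/-- the recursion, one step, for an event that all points of `Q` are matched with points of `D` -/
theorem swap_iff {E D Q : Finset V} (hQ : Q ⊆ E \ D) {e s : V} (he : e ∈ Q)
    {α : Perm V} (hα : α ∈ matchings ((E.erase e).erase s)) :
    (∀ x ∈ Q, (swap e s * α) x ∈ D) ↔ s ∈ D ∧ ∀ x ∈ Q.erase e, α x ∈ D.erase s := by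
  have he' : α e = e := mem_fix hα (by simp)
  have hsp : s ∈ D → ∀ x ∈ Q.erase e, (swap e s * α) x = α x ∧ α x ≠ s := by
    intro hs x hx
    have hxE := Finset.mem_sdiff.1 (hQ (Finset.mem_of_mem_erase hx))
    have hxs : x ≠ s := fun h => hxE.2 (h ▸ hs)
    have h1 : α x ∈ (E.erase e).erase s := mem_map hα
      (Finset.mem_erase.2 ⟨hxs, Finset.mem_erase.2 ⟨Finset.ne_of_mem_erase hx, hxE.1⟩⟩)
    have h2 : α x ≠ s := Finset.ne_of_mem_erase h1
    have h3 : α x ≠ e := Finset.ne_of_mem_erase (Finset.mem_of_mem_erase h1)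
    exact ⟨by rw [Perm.mul_apply, swap_apply_of_ne_of_ne h3 h2], h2⟩
  constructor
  · intro h
    have hs : s ∈ D := by
      have := h e he
      rwa [Perm.mul_apply, he', swap_apply_left] at this
    refine ⟨hs, fun x hx => ?_⟩
    obtain ⟨h1, h2⟩ := hsp hs x hx
    have := h x (Finset.mem_of_mem_erase hx)
    rw [h1] at this
    exact Finset.mem_erase.2 ⟨h2, this⟩
  · rintro ⟨hs, h⟩ x hx
    by_cases hxe : x = e
    · rw [hxe, Perm.mul_apply, he', swap_apply_left]
      exact hs
    · have hx' : x ∈ Q.erase e := Finset.mem_erase.2 ⟨hxe, hx⟩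
      rw [(hsp hs x hx').1]
      exact Finset.mem_of_mem_erase (h x hx')

/-- indicator of the event -/
noncomputable def ind (D Q : Finset V) (α : Perm V) : ℝ := if ∀ x ∈ Q, α x ∈ D then 1 else 0

theorem ind_rec (hma : S_match) {E D Q : Finset V} (hE : Even E.card) (hD : D ⊆ E)
    (hQ : Q ⊆ E \ D) {e : V} (he : e ∈ Q) :
    avgM E (ind D Q) = (∑ s ∈ D, avgM ((E.erase e).erase s) (ind (D.erase s) (Q.erase e))) /
      ((E.card : ℝ) - 1) := by
  have heE := Finset.mem_sdiff.1 (hQ he)
  rw [hma.2.2.1 V E e _ hE heE.1]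
  congr 1
  have hDs : D ⊆ E.erase e := fun x hx =>
    Finset.mem_erase.2 ⟨fun h => heE.2 (h ▸ hx), hD hx⟩
  rw [← Finset.sum_subset hDs]
  · refine Finset.sum_congr rfl fun s hs => ?_
    refine avgM_congr fun α hα => ?_
    unfold ind
    rw [if_congr (swap_iff hQ he hα) rfl rfl]
    simp only [hs, true_and]
  · intro s hs hsD
    have : avgM ((E.erase e).erase s) (fun α => ind D Q (swap e s * α)) =
        avgM ((E.erase e).erase s) (fun α => 0 * ind D Q α) := by
      refine avgM_congr fun α hα => ?_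
      unfold ind
      rw [if_congr (swap_iff hQ he hα) rfl rfl, if_neg (fun h => hsD h.1), zero_mul]
    rw [this, avgM_mul, zero_mul]

theorem even2 {E : Finset V} {e s : V} (he : e ∈ E) (hs : s ∈ E.erase e) (hE : Even E.card) :
    Even ((E.erase e).erase s).card := by
  have h := (card2 he hs).2
  rw [← h] at hE
  rw [Nat.even_add] at hE
  exact hE.2 (by decide)

theorem tail1 (hma : S_match) (r : ℕ) : ∀ (E D Q : Finset V) (q : ℝ), D ⊆ E → Even E.card →
    Q ⊆ E \ D → Q.card = r → 0 ≤ q → q ≤ 1 → (D.card : ℝ) ≤ q * ((E.card : ℝ) - 1 - 2 * r) →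
    avgM E (ind D Q) ≤ q ^ r := by
  induction r with
  | zero =>
    intro E D Q q hD hE hQ hr h0 h1 hc
    have hne := hma.1 V E hE
    rw [pow_zero, ← avgM_const hne 1]
    refine avgM_mono fun α _ => ?_
    unfold ind
    split_ifs <;> norm_num
  | succ r ih =>
    intro E D Q q hD hE hQ hr h0 h1 hc
    have hQ1 : Q.Nonempty := Finset.card_pos.1 (by omega)
    obtain ⟨e, he⟩ := hQ1
    have heE := Finset.mem_sdiff.1 (hQ he)
    rw [ind_rec hma hE hD hQ he]
    have hE2 : 2 ≤ E.card := by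
      have : 0 < E.card := Finset.card_pos.2 ⟨e, heE.1⟩
      obtain ⟨k, hk⟩ := hE
      omega
    have hpos : (0 : ℝ) < (E.card : ℝ) - 1 := by
      have : (2 : ℝ) ≤ E.card := by exact_mod_cast hE2
      linarith
    rw [div_le_iff₀ hpos]
    have hterm : ∀ s ∈ D, avgM ((E.erase e).erase s) (ind (D.erase s) (Q.erase e)) ≤ q ^ r := by
      intro s hs
      have hsE : s ∈ E.erase e := Finset.mem_erase.2 ⟨fun h => heE.2 (h ▸ hs), hD hs⟩
      refine ih _ _ _ q ?_ (even2 heE.1 hsE hE) ?_ ?_ h0 h1 ?_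
      · intro x hx
        have hx' := Finset.mem_erase.1 hx
        exact Finset.mem_erase.2 ⟨hx'.1, Finset.mem_erase.2 ⟨fun h => heE.2 (h ▸ hx'.2), hD hx'.2⟩⟩
      · intro x hx
        have hx' := Finset.mem_erase.1 hx
        have hxE := Finset.mem_sdiff.1 (hQ hx'.2)
        refine Finset.mem_sdiff.2 ⟨Finset.mem_erase.2 ⟨fun h => hxE.2 (h ▸ hs),
          Finset.mem_erase.2 ⟨hx'.1, hxE.1⟩⟩, fun h => hxE.2 (Finset.mem_of_mem_erase h)⟩
      · rw [Finset.card_erase_of_mem he, hr]; rfl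
      · have h3 : ((D.erase s).card : ℝ) ≤ D.card := by
          exact_mod_cast Finset.card_le_card (Finset.erase_subset _ _)
        rw [(card2 heE.1 hsE).1]
        refine h3.trans (hc.trans (le_of_eq ?_))
        push_cast; ring
    calc ∑ s ∈ D, avgM ((E.erase e).erase s) (ind (D.erase s) (Q.erase e)) ≤ ∑ s ∈ D, q ^ r :=
          Finset.sum_le_sum hterm
      _ = D.card * q ^ r := by rw [Finset.sum_const, nsmul_eq_mul]
      _ ≤ (q * ((E.card : ℝ) - 1)) * q ^ r := by
          refine mul_le_mul_of_nonneg_right (hc.trans ?_) (pow_nonneg h0 _)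
          refine mul_le_mul_of_nonneg_left ?_ h0
          have : (0 : ℝ) ≤ ((r + 1 : ℕ) : ℝ) := Nat.cast_nonneg _
          linarith
      _ = q ^ (r + 1) * ((E.card : ℝ) - 1) := by ring

theorem ind_one (hma : S_match) {E D : Finset V} (hE : Even E.card) (hD : D ⊆ E) {x : V}
    (hx : x ∈ E \ D) : avgM E (ind D {x}) = D.card / ((E.card : ℝ) - 1) := by
  rw [ind_rec hma hE hD (Finset.singleton_subset_iff.2 hx) (Finset.mem_singleton_self x)]
  congr 1
  have hxE := Finset.mem_sdiff.1 hx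
  have : ∀ s ∈ D, avgM ((E.erase x).erase s) (ind (D.erase s) (({x} : Finset V).erase x)) = 1 := by
    intro s hs
    have hsE : s ∈ E.erase x := Finset.mem_erase.2 ⟨fun h => hxE.2 (h ▸ hs), hD hs⟩
    rw [← avgM_const (hma.1 V _ (even2 hxE.1 hsE hE)) 1]
    refine avgM_congr fun α _ => ?_
    unfold ind
    rw [if_pos]
    intro y hy
    simp at hy
  rw [Finset.sum_congr rfl this, Finset.sum_const, nsmul_eq_mul, mul_one]

theorem ind_two (hma : S_match) {E D : Finset V} (hE : Even E.card) (hD : D ⊆ E) {x y : V}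
    (hx : x ∈ E \ D) (hy : y ∈ E \ D) (hxy : x ≠ y) : avgM E (ind D {x, y}) =
      D.card * ((D.card - 1) / ((E.card : ℝ) - 3)) / ((E.card : ℝ) - 1) := by
  have hsub : ({x, y} : Finset V) ⊆ E \ D := by
    intro z hz
    rcases Finset.mem_insert.1 hz with rfl | hz
    · exact hx
    · rw [Finset.mem_singleton.1 hz]; exact hy
  rw [ind_rec hma hE hD hsub (Finset.mem_insert_self x _)]
  congr 1
  have hxE := Finset.mem_sdiff.1 hx
  have hyE := Finset.mem_sdiff.1 hy
  have e1 : ({x, y} : Finset V).erase x = {y} := by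
    rw [Finset.erase_insert (by simpa using hxy)]
  have : ∀ s ∈ D, avgM ((E.erase x).erase s) (ind (D.erase s) (({x, y} : Finset V).erase x)) =
      (D.card - 1) / ((E.card : ℝ) - 3) := by
    intro s hs
    have hsE : s ∈ E.erase x := Finset.mem_erase.2 ⟨fun h => hxE.2 (h ▸ hs), hD hs⟩
    rw [e1, ind_one hma (even2 hxE.1 hsE hE), (card2 hxE.1 hsE).1, Finset.card_erase_of_mem hs,
      Nat.cast_sub (Finset.card_pos.2 ⟨s, hs⟩)]
    · congr 1
      · push_cast; ring
      · ring
    · intro z hz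
      have hz' := Finset.mem_erase.1 hz
      exact Finset.mem_erase.2 ⟨hz'.1, Finset.mem_erase.2 ⟨fun h => hxE.2 (h ▸ hz'.2), hD hz'.2⟩⟩
    · refine Finset.mem_sdiff.2 ⟨Finset.mem_erase.2 ⟨fun h => hyE.2 (h ▸ hs),
        Finset.mem_erase.2 ⟨hxy.symm, hyE.1⟩⟩, fun h => hyE.2 (Finset.mem_of_mem_erase h)⟩
  rw [Finset.sum_congr rfl this, Finset.sum_const, nsmul_eq_mul]

theorem ind_mul (D : Finset V) (x y : V) (α : Perm V) :
    ind D {x} α * ind D {y} α = ind D {x, y} α := by
  unfold ind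
  simp only [Finset.mem_singleton, forall_eq, Finset.mem_insert, forall_eq_or_imp]
  split_ifs <;> simp_all

/-- number of points matched with `D` -/
noncomputable def Qn (E D : Finset V) (α : Perm V) : ℝ := ∑ x ∈ E \ D, ind D {x} α

theorem Qn_mean (hma : S_match) {E D : Finset V} (hE : Even E.card) (hD : D ⊆ E) :
    avgM E (Qn E D) = ((E \ D).card : ℝ) * (D.card / ((E.card : ℝ) - 1)) := by
  unfold Qn
  rw [avgM_sum, Finset.sum_congr rfl (fun x hx => ind_one hma hE hD hx), Finset.sum_const,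
    nsmul_eq_mul]

theorem Qn_sq (hma : S_match) {E D : Finset V} (hE : Even E.card) (hD : D ⊆ E) :
    avgM E (fun α => Qn E D α * Qn E D α) = ((E \ D).card : ℝ) * (D.card / ((E.card : ℝ) - 1)) +
      ((E \ D).card : ℝ) * ((((E \ D).card : ℝ) - 1) *
        (D.card * ((D.card - 1) / ((E.card : ℝ) - 3)) / ((E.card : ℝ) - 1))) := by
  have h1 : (fun α => Qn E D α * Qn E D α) =
      fun α => ∑ x ∈ E \ D, ∑ y ∈ E \ D, ind D {x, y} α := by
    ext α
    unfold Qn
    rw [Finset.sum_mul_sum]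
    refine Finset.sum_congr rfl fun x _ => Finset.sum_congr rfl fun y _ => ind_mul D x y α
  rw [h1, avgM_sum]
  have h2 : ∀ x ∈ E \ D, avgM E (fun α => ∑ y ∈ E \ D, ind D {x, y} α) =
      D.card / ((E.card : ℝ) - 1) + (((E \ D).card : ℝ) - 1) *
        (D.card * ((D.card - 1) / ((E.card : ℝ) - 3)) / ((E.card : ℝ) - 1)) := by
    intro x hx
    rw [avgM_sum, ← Finset.add_sum_erase _ _ hx]
    congr 1
    · have : ({x, x} : Finset V) = {x} := by simp
      rw [this]
      exact ind_one hma hE hD hx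
    · rw [Finset.sum_congr rfl (fun y hy => ind_two hma hE hD hx (Finset.mem_of_mem_erase hy)
        (Finset.ne_of_mem_erase hy).symm), Finset.sum_const, nsmul_eq_mul,
        Finset.card_erase_of_mem hx, Nat.cast_sub (Finset.card_pos.2 ⟨x, hx⟩), Nat.cast_one]
  rw [Finset.sum_congr rfl h2, Finset.sum_const, nsmul_eq_mul]
  ring

theorem Qn_card (E D : Finset V) (α : Perm V) :
    (((E \ D).filter fun x => α x ∉ D).card : ℝ) = (E \ D).card - Qn E D α := by
  have h1 : Qn E D α = (((E \ D).filter fun x => α x ∈ D).card : ℝ) := by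
    unfold Qn ind
    simp only [Finset.mem_singleton, forall_eq]
    rw [Finset.sum_boole]
  have h2 := Finset.card_filter_add_card_filter_not (s := E \ D) (fun x => α x ∈ D)
  rw [h1, ← h2]
  push_cast
  ring

theorem tail2 (hma : S_match) {E D : Finset V} (hD : D ⊆ E) (hE : Even E.card) (η : ℝ)
    (h0 : 0 < η) (h1 : η ≤ 1) (hc : (D.card : ℝ) ≤ (1 - η) * E.card) (hN : 8 / η ^ 2 ≤ E.card) :
    avgM E (fun α => if (((E \ D).filter fun x => α x ∉ D).card : ℝ) < η ^ 2 * E.card / 4
      then 1 else 0) ≤ 64 / (η ^ 4 * E.card) := by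
  set N : ℝ := (E.card : ℝ) with hNd
  set d : ℝ := (D.card : ℝ) with hd
  set S : ℝ := ((E \ D).card : ℝ) with hSd
  have hS : S = N - d := by
    rw [hSd, hNd, hd, Finset.card_sdiff_of_subset hD, Nat.cast_sub (Finset.card_le_card hD)]
  have hN8 : 8 ≤ N := by
    refine le_trans ?_ hN
    rw [le_div_iff₀ (by positivity)]
    nlinarith
  have hηN : 8 ≤ η ^ 2 * N := by
    rw [div_le_iff₀ (by positivity)] at hN
    linarith
  set μ : ℝ := S * (d / (N - 1)) with hμ
  have hd0 : 0 ≤ d := Nat.cast_nonneg _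
  have hS0 : 0 ≤ S := Nat.cast_nonneg _
  have hvar : avgM E (fun α => (Qn E D α - μ) * (Qn E D α - μ)) ≤ N := by
    have e1 : avgM E (fun α => (Qn E D α - μ) * (Qn E D α - μ)) =
        avgM E (fun α => Qn E D α * Qn E D α) + (-(2 * μ) * avgM E (Qn E D) + μ * μ) := by
      rw [← avgM_const (hma.1 V E hE) (μ * μ), ← avgM_mul, ← avgM_add, ← avgM_add]
      refine avgM_congr fun α _ => ?_
      ring
    rw [e1, Qn_sq hma hE hD, Qn_mean hma hE hD]
    have e2 : S * (d / (N - 1)) + S * ((S - 1) * (d * ((d - 1) / (N - 3)) / (N - 1))) +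
        (-(2 * μ) * (S * (d / (N - 1))) + μ * μ) =
        μ + μ * ((2 * (S * d) - (N - 1) ^ 2) / ((N - 1) * (N - 3))) := by
      rw [hμ, hS]
      have a1 : N - 1 ≠ 0 := by linarith
      have a2 : N - 3 ≠ 0 := by linarith
      field_simp
      ring
    rw [e2]
    have hμ0 : 0 ≤ μ := by
      rw [hμ]
      exact mul_nonneg hS0 (div_nonneg hd0 (by linarith))
    have hSd4 : S * d ≤ N ^ 2 / 4 := by
      rw [hS]
      nlinarith [sq_nonneg (N - 2 * d)]
    have e3 : (2 * (S * d) - (N - 1) ^ 2) / ((N - 1) * (N - 3)) ≤ 0 := by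
      apply div_nonpos_of_nonpos_of_nonneg
      · nlinarith
      · exact mul_nonneg (by linarith) (by linarith)
    have e4 : μ ≤ N := by
      rw [hμ, ← mul_div_assoc, div_le_iff₀ (by linarith)]
      nlinarith
    nlinarith [mul_nonneg hμ0 (neg_nonneg.2 e3)]
  have hmean : η ^ 2 * N / 2 ≤ S - μ := by
    have e1 : S - μ = S * (N - 1 - d) / (N - 1) := by
      rw [hμ]
      have a1 : N - 1 ≠ 0 := by linarith
      field_simp
    rw [e1, le_div_iff₀ (by linarith)]
    have a2 : η * N ≤ S := by rw [hS]; linarith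
    have a3 : η * N - 1 ≤ N - 1 - d := by linarith
    have a4 : 1 ≤ η * N := by nlinarith
    have a5 : (η * N) * (η * N - 1) ≤ S * (N - 1 - d) :=
      mul_le_mul a2 a3 (by linarith) hS0
    refine le_trans ?_ a5
    nlinarith
  set T : ℝ := η ^ 2 * N / 4 with hT
  have hT0 : 0 < T := by rw [hT]; positivity
  have hpt : ∀ α ∈ matchings E,
      (if (((E \ D).filter fun x => α x ∉ D).card : ℝ) < T then (1 : ℝ) else 0) ≤
        (1 / T ^ 2) * ((Qn E D α - μ) * (Qn E D α - μ)) := by
    intro α _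
    have hsq : 0 ≤ (Qn E D α - μ) * (Qn E D α - μ) := mul_self_nonneg _
    split_ifs with h
    · rw [Qn_card] at h
      have a1 : T ≤ Qn E D α - μ := by
        have : η ^ 2 * N / 2 = T + T := by rw [hT]; ring
        linarith
      rw [one_div, ← div_eq_inv_mul, le_div_iff₀ (by positivity), one_mul, sq]
      exact mul_le_mul a1 a1 hT0.le (hT0.le.trans a1)
    · positivity
  refine (avgM_mono hpt).trans ?_
  rw [avgM_mul]
  refine (mul_le_mul_of_nonneg_left hvar (by positivity)).trans ?_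
  rw [hT, div_mul_eq_mul_div, one_mul, div_le_div_iff₀ (by positivity) (by positivity)]
  have : N * (η ^ 4 * N) = 16 * (η ^ 2 * N / 4) ^ 2 := by ring
  rw [this]
  have : 0 ≤ (η ^ 2 * N / 4) ^ 2 := sq_nonneg _
  linarith

end lin

theorem main (hma : S_match) : S_tail := by
  intro V _ _ E D hD hE
  refine ⟨fun r Q q hQ hr h0 h1 hc => ?_, fun η h0 h1 hc hN => ?_⟩
  · exact tail1 hma r E D Q q hD hE hQ hr h0 h1 hc
  · exact tail2 hma hD hE η h0 h1 hc hN

end Pool.Agent.W345.PD
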